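import Pool.Agent.Helper99.AE.Family

/-!
Furstenberg's conjecture for the powers of almost every real number.
-/

set_option autoImplicit false

open MeasureTheory Filter Topology
open scoped ENNReal

namespace Pool.Agent.Results.MP_96e181_an.AlmostEveryBase

/-- `T` has relative upper density at least `1 - ε` in `M`: there are arbitrarily large `N` such that
`T` has at least `(1 - ε) |M ∩ [0, N)|` elements below `N`. -/
def UpperDense (M T : Set ℕ) (ε : ℝ) : Prop :=
  ∀ N₀ : ℕ, ∃ N : ℕ, N₀ ≤ N ∧ (1 - ε) * (Nat.card {n : ℕ | n < N ∧ n ∈ M} : ℝ) ≤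
    (Nat.card {n : ℕ | n < N ∧ n ∈ T} : ℝ)

/-- The multipliers `g n`, `n ∈ T`, are universal: for every `p ≥ 2` and every atomless probability
measure `μ` on the circle invariant under `x ↦ p x`,
1. the images under `x ↦ g(n) x` of every probability measure `ν ≪ μ` converge weakly to Lebesgue
   measure as `n → ∞` in `T`;
2. for every infinite subset `S` of `T` the orbit `{g(n) x : n ∈ S}` of `μ`-almost every `x` is dense;
3. for every infinite subset `S` of `T` and every probability measure `ν` invariant under all the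
   maps `x ↦ g(n) x`, `n ∈ S`: if `ν` is not singular with respect to `μ` then `ν ≥ κ λ` for some
   `κ > 0`, and if `ν ≪ μ` (for instance `ν = μ`) then `ν = λ`. -/
def Universal (g : ℕ → ℕ) (T : Set ℕ) : Prop :=
  ∀ p : ℕ, 2 ≤ p → ∀ μ : Measure UnitAddCircle, IsProbabilityMeasure μ →
    MeasurePreserving (fun x : UnitAddCircle => p • x) μ μ → (∀ x, μ {x} = 0) →
    (∀ ν : Measure UnitAddCircle, IsProbabilityMeasure ν → ν ≪ μ → ∀ f : C(UnitAddCircle, ℝ),
      Tendsto (fun n : ℕ => ∫ x, f (g n • x) ∂ν) (atTop ⊓ 𝓟 T) (𝓝 (∫ x, f x))) ∧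
    ∀ S : Set ℕ, S ⊆ T → S.Infinite →
      (∀ᵐ x ∂μ, Dense {y : UnitAddCircle | ∃ n ∈ S, y = g n • x}) ∧
      ∀ ν : Measure UnitAddCircle, IsProbabilityMeasure ν →
        (∀ n ∈ S, MeasurePreserving (fun x : UnitAddCircle => g n • x) ν ν) →
        (¬ ν ⟂ₘ μ → ∃ κ : ℝ≥0∞, 0 < κ ∧ κ • (volume : Measure UnitAddCircle) ≤ ν) ∧
        (ν ≪ μ → ν = volume)

/-- **Furstenberg's conjecture for the powers of almost every real number.** The conjecture says that
an atomless measure on the circle invariant under `x ↦ p x` and under `x ↦ q ^ n x` for all `n` is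
Lebesgue measure. Replace the integer `q` by a real number `α > 1` and `q ^ n` by `⌊α ^ n⌋`.

Let `M` be any infinite set of exponents, however sparse. For almost every `α > 1` and every `ε > 0`
there is a subset `T` of `M` of relative upper density at least `1 - ε` such that the multipliers
`⌊α ^ n⌋`, `n ∈ T`, are universal. In particular (`S = T` and `ν = μ` in the definition of
`Universal`) every atomless probability measure on the circle invariant under `x ↦ p x` for some
`p ≥ 2` and under `x ↦ ⌊α ^ n⌋ x` for all `n ∈ M` is Lebesgue measure, without any assumption on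
the entropy and without ergodicity. -/
theorem result (M : Set ℕ) (hM : M.Infinite) : ∀ᵐ α : ℝ, 1 < α → ∀ ε : ℝ, 0 < ε →
      ∃ T : Set ℕ, T ⊆ M ∧ UpperDense M T ε ∧ Universal (fun n => ⌊α ^ n⌋₊) T := by
  filter_upwards [Helper99.AE.powers hM] with α h2 hα
  exact h2 hα

end Pool.Agent.Results.MP_96e181_an.AlmostEveryBase
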