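import Pool.Agent.Helper85.UV.PolyUniv

set_option autoImplicit false

/-!
# Universal sets of parameters for polynomial multipliers

A measure on the circle which is invariant under one multiplication `x ↦ p x` and atomless is moved to
Lebesgue measure by the multiplications by the integers `⌊F(c)⌋`, `c ∈ C`, jointly for several
polynomials `F` in several variables, for one and the same set `C` of integer points `c` of density
close to one, which does not depend on `p`, on the measure, nor on the polynomials.
-/

open MeasureTheory Filter Topology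
open scoped ENNReal

namespace Pool.Agent.Results.MP_96e181_an.PolynomialMultipliers

/-- **Universal polynomial multipliers.** Let `𝓕` be a countable set of real polynomials in `n`
variables (for instance all polynomials with algebraic coefficients) and `η > 0`. There is one set
`C ⊆ ℤⁿ`, missing at most `η Yⁿ` of the points of the cube `|cᵢ| < Y` for every `Y`, such that for
every `p ≥ 2`, every atomless probability measure `μ` on the circle invariant under `x ↦ p x` (no
assumption on entropy or ergodicity) and all `F₁, …, F_k` in `𝓕` no nontrivial integer combination of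
which is constant: for every probability measure `ν ≪ μ`, the images of `ν` under
`x ↦ (⌊F₁(c)⌋ x, …, ⌊F_k(c)⌋ x)` converge weakly to Haar measure on the torus of dimension `k` as
`c → ∞` in `C`. In particular, if `ν` is also invariant under `x ↦ ⌊F_j(c)⌋ x` for infinitely many
`c ∈ C` and one `j`, then `ν` is Lebesgue measure. -/
theorem result (n : ℕ) (𝓕 : Set (MvPolynomial (Fin n) ℝ)) (h𝓕 : 𝓕.Countable) (η : ℝ) (hη : 0 < η) :
    ∃ C : Set (Fin n → ℤ),
      (∀ Y : ℕ, (Nat.card {c : Fin n → ℤ | (∀ i, |c i| < Y) ∧ c ∉ C} : ℝ) ≤ η * (Y : ℝ) ^ n) ∧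
      ∀ p : ℕ, 2 ≤ p → ∀ μ : Measure UnitAddCircle, IsProbabilityMeasure μ →
        MeasurePreserving (fun x : UnitAddCircle => p • x) μ μ → (∀ x, μ {x} = 0) →
        ∀ (k : ℕ) (F : Fin k → MvPolynomial (Fin n) ℝ), (∀ j, F j ∈ 𝓕) →
          (∀ (m : Fin k → ℤ) (z : ℝ), m ≠ 0 → ∑ j, m j • F j ≠ MvPolynomial.C z) →
          ∀ ν : Measure UnitAddCircle, IsProbabilityMeasure ν → ν ≪ μ →
            (∀ f : C(Fin k → UnitAddCircle, ℝ),
              Tendsto (fun c : Fin n → ℤ =>
                  ∫ x, f (fun j => ⌊MvPolynomial.eval (fun i => (c i : ℝ)) (F j)⌋ • x) ∂ν)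
                (cofinite ⊓ 𝓟 C) (𝓝 (∫ y, f y))) ∧
            ∀ (j : Fin k) (S : Set (Fin n → ℤ)), S ⊆ C → S.Infinite →
              (∀ c ∈ S, MeasurePreserving
                (fun x : UnitAddCircle => ⌊MvPolynomial.eval (fun i => (c i : ℝ)) (F j)⌋ • x) ν ν) →
              ν = volume := by
  obtain ⟨C, h1, h2⟩ := Helper85.UV.poly_universal n 𝓕 h𝓕 hη
  refine ⟨C, h1, fun p hp μ hμp hμ hat k F hF hind ν hν hac => ?_⟩
  have h3 := h2 p hp μ hμp hμ hat k F hF hind
  refine ⟨h3 ν hν hac, fun j S hSC hS hinv => ?_⟩
  have hnb : (cofinite ⊓ 𝓟 S : Filter (Fin n → ℤ)).NeBot := by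
    rw [← Filter.frequently_mem_iff_neBot, Filter.frequently_cofinite_iff_infinite]
    exact hS
  have hnb' : ((cofinite ⊓ 𝓟 C) ⊓ 𝓟 S : Filter (Fin n → ℤ)).NeBot := by
    rw [inf_assoc, inf_principal, Set.inter_eq_self_of_subset_right hSC]
    exact hnb
  have h4 := h2 p hp μ hμp hμ hat 1 (fun _ => F j) (fun _ => hF j) (fun m z hm hcon => by
    refine hind (Pi.single j (m 0)) z ?_ ?_
    · intro h0
      apply hm
      funext i
      rw [Fin.eq_zero i]
      have h5 := congrFun h0 j
      rw [Pi.single_eq_same] at h5
      exact h5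
    · rw [← hcon]
      simp only [Finset.univ_unique, Fin.default_eq_zero, Fin.isValue, Finset.sum_singleton]
      rw [Finset.sum_eq_single j]
      · rw [Pi.single_eq_same]
      · intro i _ hij
        rw [Pi.single_eq_of_ne hij, zero_smul]
      · intro h
        exact absurd (Finset.mem_univ j) h)
  exact Helper85.UV.eq_volume (Helper85.UV.mix1_of_mixing h4) hnb' hinv hac

end Pool.Agent.Results.MP_96e181_an.PolynomialMultipliers
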