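import Mathlib
import Pool.Agent.Helper28K1.RF.Dir

/-!
# Sets invariant under one element of the action of `×p` and `×q` have full support

`Ω` is a probability space with two commuting measure-preserving maps `α`, `β`, and `X` is a map to
the circle with `X ∘ α = p X`, `X ∘ β = q X` almost surely and atomless law (for example the circle
itself with an atomless measure invariant under `×p` and `×q`, or its natural extension). Then a set
of positive measure which is invariant under one nontrivial element `α ^ i β ^ (-j)` or `α ^ i β ^ j`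
of the action meets the preimage of every open subset of the circle in positive measure.

The proof extends Furstenberg's theorem on closed sets to random closed sets over the points of the
base where the action is not free (`Pool/Agent/Helper28K1/RF`).
-/

set_option autoImplicit false

open MeasureTheory Set Function

namespace Pool.Agent.Results.MP_96e181_an.RandomClosedSets

open Pool.Agent.Helper28K1

theorem result {p q : ℕ} (hp : 2 ≤ p) (hq : 2 ≤ q) (hpq : Irrational (Real.log p / Real.log q))
    {Ω : Type*} [MeasurableSpace Ω] [MeasurableEq Ω] (P : Measure Ω) [IsProbabilityMeasure P]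
    (α β : Ω → Ω) (hα : MeasurePreserving α P P) (hβ : MeasurePreserving β P P)
    (hαβ : Function.Commute α β) (X : Ω → UnitAddCircle)
    (hXα : ∀ᵐ ω ∂P, X (α ω) = p • X ω) (hXβ : ∀ᵐ ω ∂P, X (β ω) = q • X ω)
    (hat : ∀ x : UnitAddCircle, P (X ⁻¹' {x}) = 0) (i j : ℕ) (hij : i ≠ 0 ∨ j ≠ 0)
    (A : Set Ω) (hA : MeasurableSet A) (hA0 : P A ≠ 0)
    (hinv : (∀ᵐ ω ∂P, (α^[i] ω ∈ A ↔ β^[j] ω ∈ A)) ∨
      ∀ᵐ ω ∂P, (α^[i] (β^[j] ω) ∈ A ↔ ω ∈ A))
    (U : Set UnitAddCircle) (hU : IsOpen U) (hUn : U.Nonempty) : P (A ∩ X ⁻¹' U) ≠ 0 :=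
  RF.directions hp hq (Pool.Agent.H705R2.mulIndep_of_irrational hp hq hpq) hα hβ hαβ hXα hXβ hat
    hij hA hA0 hinv hU hUn

end Pool.Agent.Results.MP_96e181_an.RandomClosedSets
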